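import Pool.Agent.H449.OPN8
import Pool.Agent.H421.OpEw

/-! # Odd perfect numbers whose exponents, increased by one, have a common divisor

(Joint work of helper421 and helper449.) Let `N` be an odd perfect number; exactly one prime factor of `N`, the
Euler prime, has an odd exponent in `N`. Let `r` be an odd prime dividing `v_q(N) + 1` for all the other prime
factors `q`. Kanold (1941) proved that then `r ^ 4` divides `N`. Here this is improved to `r ^ 262` for all `r`
and to `r ^ 502` with a few exceptional `r` (if `r` is not the Euler prime), and to `r ^ 257` for `r < 502` with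
a few exceptions if `r` is the Euler prime. In all cases `N` is divisible by the `256`th power of a prime.
Consequence: if all the even exponents of `N` are equal to `2 b` then `b ≥ 131`, and `b > 250` with a few
exceptional `b`.

Proof. `r` divides `N`. If `q ≠ p` (the Euler prime) divides `N` then so do the prime factors of
`1 + q + ... + q ^ (r - 1)`, which are `r` or `1` modulo `r`; and every prime factor
`q = 1 mod r` of `N`, `q ≠ p`, contributes a factor `r` to the sum of the divisors of `N`, so the
number of these `q` is at most `v_r(N)`. For every possible value of the Euler prime sufficiently many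
such primes are found, starting from `r` and from the prime factors of `(p + 1) / 2`; the
certificates (trees of primes) are checked by the kernel. (For `r ≤ 199` there are two independent sets of
certificates, `Pool.Agent.H421.Op*` and `Pool.Agent.H449.OPNm*`; the first one treats the case that `r` is the
Euler prime completely.) -/

namespace Pool.Agent.Results.MP_f02ea4_nt.CommonPrimeInExponents

open Pool.Agent.H449.OPN

theorem result : ∀ N : ℕ, Odd N → N.Perfect →
    (∀ r : ℕ, r.Prime → Odd r →
      (∀ q ∈ N.primeFactors, Even (N.factorization q) → r ∣ N.factorization q + 1) →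
      (Even (N.factorization r) → 262 ≤ N.factorization r ∧
        (r ∉ [263, 337, 359, 367, 379, 383, 421, 443, 449, 457, 499] → 502 ≤ N.factorization r)) ∧
      (Odd (N.factorization r) → r < 502 →
        r ∉ [263, 337, 359, 367, 379, 383, 421, 443, 449, 457, 499] → r ∉ [313, 373, 389, 397] →
        257 ≤ N.factorization r)) ∧
    (∀ m : ℕ, 1 < m →
      (∀ q ∈ N.primeFactors, Even (N.factorization q) → m ∣ N.factorization q + 1) →
      ∃ q : ℕ, q.Prime ∧ q ^ 256 ∣ N) ∧
    (∀ b : ℕ, (∀ q ∈ N.primeFactors, Even (N.factorization q) → N.factorization q = 2 * b) →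
      251 ≤ b ∨ 2 * b + 1 ∈ [263, 337, 359, 367, 379, 383, 421, 443, 449, 457, 499]) := by
  intro N hodd hN
  obtain ⟨e, he⟩ := exists_euler hN hodd
  have hs0 : ∀ r : ℕ, r.Prime → Odd r →
      (∀ q ∈ N.primeFactors, Even (N.factorization q) → r ∣ N.factorization q + 1) → Sit0 N e r :=
    fun r hr hr2 hcom => ⟨hN, hodd, he, hr, hr2, fun q hq hqe => hcom q hq (he.even q hq hqe)⟩
  have hne : ∀ r : ℕ, Even (N.factorization r) → r ≠ e := by
    rintro r hev rfl
    have h1 := he.a4
    rw [Nat.even_iff] at hev
    omega
  refine ⟨?_, fun m hm h => ?_, ?_⟩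
  · intro r hr hr2 hcom
    have hsit0 := hs0 r hr hr2 hcom
    refine ⟨fun hev => ⟨main2 ⟨hsit0, hne r hev⟩, fun hx => main ⟨hsit0, hne r hev⟩ hx⟩, fun ho hlt hx hy => ?_⟩
    rcases Nat.lt_or_ge 256 r with hgt | hle
    · have hre : e = r := by
        by_contra hre
        have := he.even r hsit0.r_mem (fun h => hre h.symm)
        rw [Nat.even_iff] at this
        rw [Nat.odd_iff] at ho
        omega
      subst hre
      exact mainE hsit0 hx hy hlt hgt
    · exact le_trans (by norm_num) (Pool.Agent.H421.Op.euler_of_hasEuler Pool.Agent.H421.Op.hasEuler256 hodd hN hr (by omega) ho hcom)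
  · refine Pool.Agent.H421.Op.divisor_of_bound256 hodd hN hm (K := 256) (by norm_num) h (fun r hr hr2 hcom hev => ?_)
    exact le_trans (by norm_num) (main2 ⟨hs0 r hr hr2 hcom, hne r hev⟩)
  intro b hall
  by_contra hcb
  push Not at hcb
  obtain ⟨hb2, hbx⟩ := hcb
  have hep : e.Prime := Nat.prime_of_mem_primeFactors he.mem
  -- a prime factor of `2 b + 1` different from `e`
  have hex : ∃ r : ℕ, r.Prime ∧ r ∣ 2 * b + 1 ∧ r ≠ e := by
    by_contra hcon
    push Not at hcon
    have h1 : 2 * b + 1 = e ^ (2 * b + 1).primeFactorsList.length :=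
      Nat.eq_prime_pow_of_unique_prime_dvd (by omega) (fun {l} hl hd => hcon l hl hd)
    refine not_pow (s := (2 * b + 1).primeFactorsList.length) hN hodd he (fun q hq hqe => ?_)
    rw [hall q hq (he.even q hq hqe), ← h1]
  obtain ⟨r, hr, hrd, hre⟩ := hex
  have hr2 : Odd r := by
    rcases hr.eq_two_or_odd' with h | h
    · rw [h] at hrd; omega
    · exact h
  have hcom : ∀ q ∈ N.primeFactors, Even (N.factorization q) → r ∣ N.factorization q + 1 := by
    intro q hq hq2
    rw [hall q hq hq2]; exact hrd
  have hsit : Sit N e r :=
    ⟨⟨hN, hodd, he, hr, hr2, fun q hq hqe => hcom q hq (he.even q hq hqe)⟩, hre⟩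
  have hev := he.even r hsit.r_mem hre
  have h3 := hall r hsit.r_mem hev
  have hx : r ∉ [263, 337, 359, 367, 379, 383, 421, 443, 449, 457, 499] := by
    intro hm
    have h167 : ∀ x ∈ [263, 337, 359, 367, 379, 383, 421, 443, 449, 457, 499], 167 < x := by decide
    have h4 := h167 r hm
    obtain ⟨c, hc⟩ := hrd
    have hc3 : c = 0 ∨ c = 1 ∨ c = 2 ∨ 3 ≤ c := by omega
    rcases hc3 with rfl | rfl | rfl | hc3
    · omega
    · rw [mul_one] at hc
      exact hbx (hc ▸ hm)
    · omega
    · have : 168 * 3 ≤ r * c := Nat.mul_le_mul (by omega) hc3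
      omega
  have h4 := main hsit hx
  omega

end Pool.Agent.Results.MP_f02ea4_nt.CommonPrimeInExponents
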