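import Pool.Agent.H375.TM.Opn

/-!
# Odd perfect numbers almost all of whose exponents are `≡ -1` modulo fixed primes

For a finite set `P` of odd primes let `B(N)` be the set of the prime factors `q` of `N` such that
no `l ∈ P` divides `v_q(N) + 1`, or such that `q ≡ 1 (mod l)` and `l ∤ v_q(N) + 1` for some `l ∈ P`,
and let `T_l(N)` be the set of the prime factors `q ≡ 1 (mod l)` of `N` with `l ∣ v_q(N) + 1`.
There is a constant `C = C(P)` such that every odd perfect number `N` satisfies
`N < 2 ^ (4 ^ (C ^ (1 + |B(N)| + ∑_{l ∈ P} min (v_l(N)) |T_l(N)|)))`.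
In particular, for a fixed odd prime `l` there are only finitely many odd perfect numbers `N` with
`v_l(N) ≤ V` and with at most `k` prime factors `q` such that `l ∤ v_q(N) + 1`.

The proof: if `l ∣ v_q(N) + 1` then `Φ_l(q)` divides `N`, and all its prime factors are `l` or
`≡ 1 (mod l)`; the number of integers `q` such that `Φ_l(q)` is composed of `s` given primes and of
a bounded factor is at most `C ^ (s + 1)`, uniformly in the primes (a Thue-Siegel argument with
Siegel's lemma and a Wronskian, a gap principle, and a division into `C ^ s` classes).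
-/

namespace Pool.Agent.Results.MP_f02ea4_nt.ExponentsModFixedPrimes

/-- The prime factors `q` of `N` such that no `l ∈ P` divides `v_q(N) + 1`, or such that
`q ≡ 1 (mod l)` and `l ∤ v_q(N) + 1` for some `l ∈ P`. -/
def B (P : Finset ℕ) (N : ℕ) : Finset ℕ :=
  N.primeFactors.filter (fun q => (∀ l ∈ P, ¬ l ∣ N.factorization q + 1) ∨
    ∃ l ∈ P, q ≡ 1 [MOD l] ∧ ¬ l ∣ N.factorization q + 1)

/-- The prime factors `q ≡ 1 (mod l)` of `N` with `l ∣ v_q(N) + 1`. -/
def T (l N : ℕ) : Finset ℕ :=
  N.primeFactors.filter (fun q => q ≡ 1 [MOD l] ∧ l ∣ N.factorization q + 1)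

/-- **Main theorem.** -/
theorem result (P : Finset ℕ) (hP : ∀ l ∈ P, l.Prime ∧ Odd l) :
    ∃ C : ℕ, ∀ N : ℕ, Odd N → Nat.Perfect N →
      N < 2 ^ (4 ^ (C ^ (1 + (B P N).card +
        ∑ l ∈ P, min (N.factorization l) (T l N).card))) :=
  Pool.H375.TM.opn_main' P hP

end Pool.Agent.Results.MP_f02ea4_nt.ExponentsModFixedPrimes
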