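import Mathlib
import Pool.Agent.H965.Opn2.Final2

/-!
# The large primes of an odd perfect number after the removal of a few primes

Let `N` be an odd perfect number, `y ≥ 1`, `H ≥ 0`, `R` a set of at most `c √(log log N)` primes and
`D` the part of `N` composed of the primes `> y` which are not in `R`. If `log p ≤ H ^ 2` for all
`p ∈ R`, or if every `p ∈ R` has `log p ≤ H` or `log p ≥ y (log N) ^ ε`, then

  `log N ≤ C (log N) ^ ε (y ^ (3 / 2) + y H + log D)`.

With `H = y (log N) ^ ε` there is no condition on `R`; if `R` has one element, one of the two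
conditions holds with `H = (y (log N) ^ ε) ^ (1 / 2)`.

Consequences, for large `N`: if all prime factors of `N` are at most `exp ((log N) ^ β)` (which
is always true for `β = 1`), then more than `c √(log log N)` of them are larger than
`(log N) ^ (min (2 / 3) (1 - β / 2) - ε)`; two prime factors are larger than
`(log N) ^ (2 / 3 - ε)`; and more than `c √(log log N)` are, unless `N` has prime factors `p < P`
with `exp ((log N) ^ (1 / 3 - ε)) < p < exp ((log N) ^ (2 / 3))` and
`P > exp ((log N) ^ (2 / 3 - ε))`.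

Proof. Let `x q r` be the logarithm of the `r`-part of `σ(q ^ e)`, `q ^ e ∥ N`, and let `K` be the
set of the primes `q ≤ y`, `q ∉ R`, without the few for which the lower bound for linear forms in
many logarithms (`H612.NLog`, `H612.OPNm.Elim.star`) does not give
`log (q ^ e) ≤ y (log N) ^ ε + …`.
By `σ(N) = 2 N` what flows into `K` from the outside (`∑ x q r`, `r ∈ K`, `q ∉ K`) is at most what
flows out of `K`, plus `log 2` (`balance`).
* `inflow_one`: a prime `p` sends at most `(log N) ^ ε y √(log p)` into `K`: for a divisor `d` of the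
  number `e + 1` the primes `r ≤ y` modulo which `p` has order `d` are `1` modulo `d`, so there are at
  most `y / d` of them, each receives at most its own weight, and together they receive at most
  `log (p ^ d)`.
* `outflow_one`: a prime `p` receives at most `(log N) ^ ε y (1 + log p)` from `K`: all but
  `4 log p + 2` of the `q ∈ K` send at most `(2 log p + 1) log y + log p + log (e + 1)`, since the
  products of the exceptional `q` are different solutions of `X ^ (p - 1) = 1` modulo a power of `p`;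
  and nothing if `log p` is large.
So in both cases the inflow is small, and the entropy argument of `LargePrimesTwoThirds` can be
applied to `K` with this error.
-/

set_option autoImplicit false

namespace Pool.Agent.Results.MP_f02ea4_nt.LargePrimesRemoved

open Finset Pool.Agent.H612.OPNm Pool.Agent.W132.OPN

/-- The part of `N` composed of the primes `> y` which are not in `R`. -/
noncomputable def largePart (N : ℕ) (y : ℝ) (R : Finset ℕ) : ℕ :=
  ∏ p ∈ N.primeFactors.filter (fun p : ℕ => y < (p : ℝ) ∧ p ∉ R), p ^ N.factorization p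

lemma largePart_eq (N : ℕ) {y : ℝ} (hy : 0 ≤ y) (R : Finset ℕ) :
    largePart N y R = DD N ⌊y⌋₊ R := by
  classical
  unfold largePart DD
  rw [pt_eq_prod]
  refine Finset.prod_congr ?_ fun _ _ => rfl
  ext p
  simp only [Finset.mem_filter]
  rw [Nat.floor_lt hy]

lemma largePart_mono {N : ℕ} {y z : ℝ} (hyz : y ≤ z) (R : Finset ℕ) :
    Real.log (largePart N z R) ≤ Real.log (largePart N y R) := by
  classical
  unfold largePart
  have hpos : ∀ p ∈ N.primeFactors, 1 ≤ p ^ N.factorization p := fun p hp =>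
    Nat.one_le_pow _ _ (Nat.prime_of_mem_primeFactors hp).pos
  apply Real.log_le_log
  · exact_mod_cast Finset.prod_pos fun p hp => hpos p (Finset.mem_filter.1 hp).1
  · have : ∏ p ∈ N.primeFactors.filter (fun p : ℕ => z < (p : ℝ) ∧ p ∉ R), p ^ N.factorization p ≤
        ∏ p ∈ N.primeFactors.filter (fun p : ℕ => y < (p : ℝ) ∧ p ∉ R), p ^ N.factorization p := by
      refine Finset.prod_le_prod_of_subset_of_one_le' ?_ ?_
      · intro p hp
        rw [Finset.mem_filter] at hp ⊢
        exact ⟨hp.1, by linarith [hp.2.1], hp.2.2⟩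
      · intro p hp _
        exact hpos p (Finset.mem_filter.1 hp).1
    exact_mod_cast this

/-- `largePart` is `1` if all primes `> y` are removed. -/
lemma largePart_one {N : ℕ} {y : ℝ} {R : Finset ℕ}
    (h : ∀ p ∈ N.primeFactors, y < (p : ℝ) → p ∈ R) : largePart N y R = 1 := by
  unfold largePart
  refine Finset.prod_eq_one fun p hp => ?_
  exfalso
  rw [Finset.mem_filter] at hp
  exact hp.2.2 (h p hp.1 hp.2.1)

/-- Removing numbers which do not divide `N` changes nothing. -/
lemma largePart_filter (N : ℕ) (y : ℝ) (R : Finset ℕ) :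
    largePart N y (R.filter (· ∣ N)) = largePart N y R := by
  unfold largePart
  refine Finset.prod_congr ?_ fun _ _ => rfl
  ext p
  simp only [Finset.mem_filter, Nat.mem_primeFactors, not_and]
  constructor
  · rintro ⟨h1, h2, h3⟩
    exact ⟨h1, h2, fun h4 => h3 h4 h1.2.1⟩
  · rintro ⟨h1, h2, h3⟩
    exact ⟨h1, h2, fun h4 => absurd h4 h3⟩

/-- the exponents -/
lemma large {C ε₀ L D X : ℝ} (hC : 0 < C) (hε₀ : 0 < ε₀)
    (hLbig : (4 * C + 1) ^ (4 / ε₀) ≤ L) (hL1 : 1 < L) (hX : X ≤ 3 * L ^ (1 - ε₀ / 2))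
    (h : L ≤ C * L ^ (ε₀ / 4) * (X + D)) : L ^ (1 - ε₀) ≤ D := by
  have hL0 : 0 < L := by linarith
  have hLC : 4 * C + 1 ≤ L ^ (ε₀ / 4) := by
    have h1 := Real.rpow_le_rpow (by positivity) hLbig (show 0 ≤ ε₀ / 4 by linarith)
    rw [← Real.rpow_mul (by positivity)] at h1
    have h2 : 4 / ε₀ * (ε₀ / 4) = 1 := by field_simp
    rwa [h2, Real.rpow_one] at h1
  by_contra hcon
  push Not at hcon
  have h0 : L ^ (1 - ε₀) ≤ L ^ (1 - ε₀ / 2) :=
    Real.rpow_le_rpow_of_exponent_le hL1.le (by linarith)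
  have h1 : L ≤ C * L ^ (ε₀ / 4) * (4 * L ^ (1 - ε₀ / 2)) := by
    refine h.trans (mul_le_mul_of_nonneg_left (by linarith) ?_)
    have := Real.rpow_nonneg hL0.le (ε₀ / 4)
    positivity
  have h2 : L ^ (ε₀ / 4) * L ^ (1 - ε₀ / 2) = L ^ (1 - ε₀ / 4) := by
    rw [← Real.rpow_add hL0]; congr 1; ring
  have h3 : L = L ^ (ε₀ / 4) * L ^ (1 - ε₀ / 4) := by
    rw [← Real.rpow_add hL0]
    have : ε₀ / 4 + (1 - ε₀ / 4) = 1 := by ring
    rw [this, Real.rpow_one]
  have h4 : 0 < L ^ (1 - ε₀ / 4) := Real.rpow_pos_of_pos hL0 _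
  have h5 : L ^ (ε₀ / 4) * L ^ (1 - ε₀ / 4) ≤ 4 * C * L ^ (1 - ε₀ / 4) := by
    rw [← h3]
    calc L ≤ C * L ^ (ε₀ / 4) * (4 * L ^ (1 - ε₀ / 2)) := h1
      _ = 4 * C * (L ^ (ε₀ / 4) * L ^ (1 - ε₀ / 2)) := by ring
      _ = _ := by rw [h2]
  have h6 := le_of_mul_le_mul_right h5 h4
  linarith

/-- `y ^ (3 / 2)` for `y = L ^ t`. -/
lemma pow_threeHalf {L t : ℝ} (hL : 0 < L) : L ^ t * √(L ^ t) = L ^ (3 / 2 * t) := by
  rw [Real.sqrt_eq_rpow, ← Real.rpow_mul hL.le, ← Real.rpow_add hL]
  congr 1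
  ring

/-- **Main theorem.** For every `ε > 0` there are `c, C > 0` and `N₀` such that the following holds
for every odd perfect number `N`. `largePart N y R` is the part of `N` composed of the primes `> y`
which are not in `R`.

(1) Let `R` be a set of at most `c √(log log N)` natural numbers, `y ≥ 1` and `H ≥ 0` real. If
`log p ≤ H ^ 2` for all `p ∈ R`, or if for every `p ∈ R` one has `log p ≤ H` or
`log p ≥ y (log N) ^ ε`, then
`log N ≤ C (log N) ^ ε (y ^ (3 / 2) + y H + log (largePart N y R))`.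

If `N > N₀` then moreover:
(2) for every real `β` and every set `R` of at most `c √(log log N)` natural numbers such that
`log p ≤ (log N) ^ β` for the `p ∈ R` which divide `N` (no condition if `β = 1`), the part of `N`
composed of the primes `> (log N) ^ (min (2 / 3) (1 - β / 2) - ε)` not in `R` is at least
`exp ((log N) ^ (1 - ε))`;
(3) after the removal of any one prime `r` the part of `N` composed of the primes
`> (log N) ^ (2 / 3 - ε)` is at least `exp ((log N) ^ (1 - ε))`;
(4) if `log p ≤ (log N) ^ β` for all prime factors `p` of `N` (no condition if `β = 1`), then more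
than `c √(log log N)` of them are larger than `(log N) ^ (min (2 / 3) (1 - β / 2) - ε)`;
(5) at least two prime factors of `N` are larger than `(log N) ^ (2 / 3 - ε)`;
(6) more than `c √(log log N)` prime factors of `N` are larger than `(log N) ^ (2 / 3 - ε)`, or `N`
has prime factors `p < P` with `exp ((log N) ^ (1 / 3 - ε)) < p < exp ((log N) ^ (2 / 3))` and
`P > exp ((log N) ^ (2 / 3 - ε))`. -/
theorem result (ε : ℝ) (hε : 0 < ε) : ∃ (c C : ℝ) (N₀ : ℕ), 0 < c ∧ 0 < C ∧
    ∀ N : ℕ, Odd N → N.Perfect →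
      (∀ R : Finset ℕ, (R.card : ℝ) ≤ c * √(Real.log (Real.log N)) → ∀ y H : ℝ, 1 ≤ y → 0 ≤ H →
        ((∀ p ∈ R, Real.log (p : ℝ) ≤ H ^ 2) ∨
          (∀ p ∈ R, Real.log (p : ℝ) ≤ H ∨ y * Real.log N ^ ε ≤ Real.log (p : ℝ))) →
        Real.log N ≤ C * Real.log N ^ ε *
          (y ^ (3 / 2 : ℝ) + y * H + Real.log (largePart N y R))) ∧
      (N₀ < N →
        (∀ (β : ℝ) (R : Finset ℕ), (R.card : ℝ) ≤ c * √(Real.log (Real.log N)) →
          (∀ p ∈ R, p ∣ N → Real.log (p : ℝ) ≤ Real.log N ^ β) →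
          Real.log N ^ (1 - ε) ≤
            Real.log (largePart N (Real.log N ^ (min (2 / 3) (1 - β / 2) - ε)) R)) ∧
        (∀ r : ℕ, Real.log N ^ (1 - ε) ≤
          Real.log (largePart N (Real.log N ^ (2 / 3 - ε)) {r})) ∧
        (∀ β : ℝ, (∀ p ∈ N.primeFactors, Real.log (p : ℝ) ≤ Real.log N ^ β) →
          c * √(Real.log (Real.log N)) < ((N.primeFactors.filter fun p : ℕ =>
            Real.log N ^ (min (2 / 3) (1 - β / 2) - ε) < (p : ℝ)).card : ℝ)) ∧
        2 ≤ (N.primeFactors.filter fun p : ℕ => Real.log N ^ (2 / 3 - ε) < (p : ℝ)).card ∧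
        (c * √(Real.log (Real.log N)) <
            ((N.primeFactors.filter fun p : ℕ => Real.log N ^ (2 / 3 - ε) < (p : ℝ)).card : ℝ) ∨
          ∃ p ∈ N.primeFactors, ∃ P ∈ N.primeFactors, p < P ∧
            Real.exp (Real.log N ^ (1 / 3 - ε)) < (p : ℝ) ∧
            (p : ℝ) < Real.exp (Real.log N ^ (2 / 3 : ℝ)) ∧
            Real.exp (Real.log N ^ (2 / 3 - ε)) < (P : ℝ))) := by
  classical
  set ε₀ : ℝ := min ε (1 / 4) with hε₀
  have hε₀0 : 0 < ε₀ := lt_min hε (by norm_num)
  have hε₀1 : ε₀ ≤ 1 / 4 := min_le_right _ _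
  have hε₀ε : ε₀ ≤ ε := min_le_left _ _
  obtain ⟨c₁, C₁, hc₁, hC₁, hmain₁⟩ := Pool.Agent.H965.Opn2.main2 ε hε
  obtain ⟨c₂, C₂, hc₂, hC₂, hmain₂⟩ := Pool.Agent.H965.Opn2.main2 (ε₀ / 4) (by linarith)
  set c : ℝ := min c₁ c₂ with hc
  have hc0 : 0 < c := lt_min hc₁ hc₂
  set A : ℝ := (4 * C₂ + 1) ^ (4 / ε₀) + Real.exp ((1 / c) ^ 2) with hA
  have hA0 : 0 ≤ (4 * C₂ + 1) ^ (4 / ε₀) := by positivity
  refine ⟨c, C₁, ⌈Real.exp A⌉₊, hc0, hC₁, ?_⟩
  intro N hodd hperf
  have H := opn_of_perfect hodd hperf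
  have hL1 := one_lt_log H
  set L := Real.log N with hL
  have hL0 : 0 < L := by linarith
  have hNpos : (0 : ℝ) < N := by exact_mod_cast Nat.pos_of_ne_zero H.ne_zero
  have hs0 : 0 ≤ √(Real.log L) := Real.sqrt_nonneg _
  refine ⟨?_, ?_⟩
  · intro R hR y H' hy hH' hcond
    have hR' : (R.card : ℝ) ≤ c₁ * √(Real.log L) :=
      hR.trans (mul_le_mul_of_nonneg_right (min_le_left _ _) hs0)
    have h1 := hmain₁ N hodd hperf R hR' y hy H' hH' hcond
    rw [← largePart_eq N (by linarith) R] at h1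
    have h2 : y * √y = y ^ (3 / 2 : ℝ) := by
      have hy0 : 0 < y := by linarith
      rw [Real.sqrt_eq_rpow]
      nth_rewrite 1 [← Real.rpow_one y]
      rw [← Real.rpow_add hy0]
      norm_num
    rwa [h2] at h1
  · intro hN
    have hLA : A ≤ L := by
      rw [hL, Real.le_log_iff_exp_le hNpos]
      have h1 := Nat.le_ceil (Real.exp A)
      have h2 : ((⌈Real.exp A⌉₊ : ℕ) : ℝ) ≤ N := by exact_mod_cast hN.le
      exact h1.trans h2
    have hLbig : (4 * C₂ + 1) ^ (4 / ε₀) ≤ L := by
      have := Real.exp_pos ((1 / c) ^ 2)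
      linarith
    have hcs : 1 ≤ c * √(Real.log L) := by
      have h1 : (1 / c) ^ 2 ≤ Real.log L := by
        rw [Real.le_log_iff_exp_le hL0]
        linarith
      have h2 : 1 / c ≤ √(Real.log L) := Real.le_sqrt_of_sq_le h1
      rw [div_le_iff₀ hc0] at h2
      linarith
    have hmono : ∀ {s t : ℝ}, s ≤ t → L ^ s ≤ L ^ t := fun h =>
      Real.rpow_le_rpow_of_exponent_le hL1.le h
    -- the general consequence of the main inequality
    have key : ∀ (R : Finset ℕ) (t H' : ℝ), (R.card : ℝ) ≤ c * √(Real.log L) → 0 ≤ t →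
        t ≤ 2 / 3 - ε₀ → 0 ≤ H' → L ^ t * H' ≤ 2 * L ^ (1 - ε₀ / 2) →
        ((∀ p ∈ R, Real.log (p : ℝ) ≤ H' ^ 2) ∨
          (∀ p ∈ R, Real.log (p : ℝ) ≤ H' ∨ L ^ t * L ^ (ε₀ / 4) ≤ Real.log (p : ℝ))) →
        L ^ (1 - ε₀) ≤ Real.log (largePart N (L ^ t) R) := by
      intro R t H' hR ht0 ht1 hH0 hH1 hcond
      have hR' : (R.card : ℝ) ≤ c₂ * √(Real.log L) :=
        hR.trans (mul_le_mul_of_nonneg_right (min_le_right _ _) hs0)
      have hy1 : 1 ≤ L ^ t := Real.one_le_rpow hL1.le ht0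
      have h1 := hmain₂ N hodd hperf R hR' _ hy1 H' hH0 hcond
      rw [← largePart_eq N (by linarith) R, pow_threeHalf hL0] at h1
      refine large hC₂ hε₀0 hLbig hL1 ?_ h1
      have h2 : L ^ (3 / 2 * t) ≤ L ^ (1 - ε₀ / 2) := hmono (by linarith)
      linarith
    have toε : L ^ (1 - ε) ≤ L ^ (1 - ε₀) := hmono (by linarith)
    -- removal of primes of bounded height
    have bdd : ∀ (β : ℝ), β ≤ 1 → ∀ R : Finset ℕ, (R.card : ℝ) ≤ c * √(Real.log L) →
        (∀ p ∈ R, p ∣ N → Real.log (p : ℝ) ≤ L ^ β) →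
        L ^ (1 - ε₀) ≤ Real.log (largePart N (L ^ (min (2 / 3) (1 - β / 2) - ε₀)) R) := by
      intro β hβ R hR hRb
      rw [← largePart_filter N _ R]
      have hcard : (((R.filter (· ∣ N)).card : ℕ) : ℝ) ≤ c * √(Real.log L) := by
        refine le_trans ?_ hR
        exact_mod_cast Finset.card_filter_le _ _
      have hmin1 : min (2 / 3) (1 - β / 2) ≤ 1 - β / 2 := min_le_right _ _
      have hmin2 : min (2 / 3) (1 - β / 2) ≤ 2 / 3 := min_le_left _ _
      have hmin3 : 1 / 2 ≤ min (2 / 3) (1 - β / 2) := le_min (by norm_num) (by linarith)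
      refine key _ _ (L ^ (β / 2)) hcard (by linarith) (by linarith)
        (Real.rpow_nonneg hL0.le _) ?_ (Or.inl ?_)
      · rw [← Real.rpow_add hL0]
        have h1 : L ^ (min (2 / 3) (1 - β / 2) - ε₀ + β / 2) ≤ L ^ (1 - ε₀ / 2) :=
          hmono (by linarith)
        have h2 : 0 ≤ L ^ (1 - ε₀ / 2) := Real.rpow_nonneg hL0.le _
        linarith
      · intro p hp
        rw [Finset.mem_filter] at hp
        refine (hRb p hp.1 hp.2).trans (le_of_eq ?_)
        rw [← Real.rpow_natCast, ← Real.rpow_mul hL0.le]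
        congr 1
        push_cast
        ring
    have logp : ∀ p : ℕ, p ∣ N → Real.log (p : ℝ) ≤ L ^ (1 : ℝ) := by
      intro p hp
      rw [Real.rpow_one, hL]
      rcases Nat.eq_zero_or_pos p with h0 | h0
      · rw [h0, Nat.cast_zero, Real.log_zero]
        exact hL0.le
      · apply Real.log_le_log (by exact_mod_cast h0)
        exact_mod_cast Nat.le_of_dvd (Nat.pos_of_ne_zero H.ne_zero) hp
    have part2 : ∀ (β : ℝ) (R : Finset ℕ), (R.card : ℝ) ≤ c * √(Real.log L) →
        (∀ p ∈ R, p ∣ N → Real.log (p : ℝ) ≤ L ^ β) →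
        L ^ (1 - ε) ≤ Real.log (largePart N (L ^ (min (2 / 3) (1 - β / 2) - ε)) R) := by
      intro β R hR hRb
      rcases le_total β 1 with hβ | hβ
      · exact (toε.trans (bdd β hβ R hR hRb)).trans (largePart_mono (hmono (by linarith)) R)
      · refine (toε.trans (bdd 1 le_rfl R hR fun p _ hp => logp p hp)).trans
          (largePart_mono (hmono ?_) R)
        have h1 : min (2 / 3 : ℝ) (1 - β / 2) ≤ min (2 / 3) (1 - 1 / 2) :=
          min_le_min le_rfl (by linarith)
        linarith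
    have hy1 : 1 ≤ L ^ (2 / 3 - ε₀) := Real.one_le_rpow hL1.le (by linarith)
    have hyle : L ^ (2 / 3 - ε) ≤ L ^ (2 / 3 - ε₀) := hmono (by linarith)
    have hLε : 1 ≤ L ^ (ε₀ / 4) := Real.one_le_rpow hL1.le (by linarith)
    -- the height `y (log N) ^ ε`
    have hYZ : L ^ (2 / 3 - ε₀) * L ^ (ε₀ / 4) = L ^ (2 / 3 - 3 / 4 * ε₀) := by
      rw [← Real.rpow_add hL0]; congr 1; ring
    have hH1 : L ^ (2 / 3 - ε₀) * L ^ (1 / 3 - 3 / 8 * ε₀) ≤ 2 * L ^ (1 - ε₀ / 2) := by
      rw [← Real.rpow_add hL0]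
      have h1 : L ^ (2 / 3 - ε₀ + (1 / 3 - 3 / 8 * ε₀)) ≤ L ^ (1 - ε₀ / 2) := hmono (by linarith)
      have h2 : 0 ≤ L ^ (1 - ε₀ / 2) := Real.rpow_nonneg hL0.le _
      linarith
    have hHsq : (L ^ (1 / 3 - 3 / 8 * ε₀)) ^ 2 = L ^ (2 / 3 - 3 / 4 * ε₀) := by
      rw [← Real.rpow_natCast, ← Real.rpow_mul hL0.le]
      congr 1
      push_cast
      ring
    have hH0 : 0 ≤ L ^ (1 / 3 - 3 / 8 * ε₀) := Real.rpow_nonneg hL0.le _
    have part3 : ∀ r : ℕ, L ^ (1 - ε) ≤ Real.log (largePart N (L ^ (2 / 3 - ε)) {r}) := by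
      intro r
      have h1 : L ^ (1 - ε₀) ≤ Real.log (largePart N (L ^ (2 / 3 - ε₀)) {r}) := by
        refine key {r} _ (L ^ (1 / 3 - 3 / 8 * ε₀)) (by rw [card_singleton]; simpa using hcs)
          (by linarith) le_rfl hH0 hH1 ?_
        rw [hYZ, hHsq]
        rcases le_total (Real.log (r : ℝ)) (L ^ (2 / 3 - 3 / 4 * ε₀)) with h2 | h2
        · left
          intro p hp
          rw [mem_singleton.1 hp]
          exact h2
        · right
          intro p hp
          rw [mem_singleton.1 hp]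
          exact Or.inr h2
      exact (toε.trans h1).trans (largePart_mono hyle {r})
    refine ⟨part2, part3, ?_, ?_, ?_⟩
    · intro β hβ
      by_contra hcon
      push Not at hcon
      have h1 := part2 β _ hcon fun p hp _ => hβ p (mem_filter.1 hp).1
      rw [largePart_one (fun p hp hpy => mem_filter.2 ⟨hp, hpy⟩), Nat.cast_one,
        Real.log_one] at h1
      have h3 : 0 < L ^ (1 - ε) := Real.rpow_pos_of_pos hL0 _
      linarith
    · by_contra hcon
      push Not at hcon
      have h1 : (N.primeFactors.filter fun p : ℕ => L ^ (2 / 3 - ε) < (p : ℝ)).card ≤ 1 := by omega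
      obtain ⟨r, hr⟩ := Finset.card_le_one_iff_subset_singleton.1 h1
      have h2 := part3 r
      rw [largePart_one (fun p hp hpy => hr (mem_filter.2 ⟨hp, hpy⟩)), Nat.cast_one,
        Real.log_one] at h2
      have h3 : 0 < L ^ (1 - ε) := Real.rpow_pos_of_pos hL0 _
      linarith
    · by_contra hcon
      push Not at hcon
      obtain ⟨h1, h2⟩ := hcon
      set R := N.primeFactors.filter fun p : ℕ => L ^ (2 / 3 - ε) < (p : ℝ) with hRdef
      have hone : Real.log (largePart N (L ^ (2 / 3 - ε₀)) R) = 0 := by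
        rw [largePart_one (fun p hp hpy => mem_filter.2 ⟨hp, lt_of_le_of_lt hyle hpy⟩),
          Nat.cast_one, Real.log_one]
      have hpos : 0 < L ^ (1 - ε₀) := Real.rpow_pos_of_pos hL0 _
      -- a prime factor of large height
      have hP : ∃ P ∈ R, L ^ (2 / 3 - 3 / 4 * ε₀) < Real.log (P : ℝ) := by
        by_contra hno
        push Not at hno
        have h3 := key R _ (L ^ (1 / 3 - 3 / 8 * ε₀)) h1 (by linarith) le_rfl hH0 hH1
          (Or.inl fun p hp => by rw [hHsq]; exact hno p hp)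
        linarith
      -- a prime factor of middle height
      have hp : ∃ p ∈ R, L ^ (1 / 3 - 3 / 8 * ε₀) < Real.log (p : ℝ) ∧
          Real.log (p : ℝ) < L ^ (2 / 3 - 3 / 4 * ε₀) := by
        by_contra hno
        push Not at hno
        have h3 := key R _ (L ^ (1 / 3 - 3 / 8 * ε₀)) h1 (by linarith) le_rfl hH0 hH1
          (Or.inr fun p hp => by
            rw [hYZ]
            rcases le_or_gt (Real.log (p : ℝ)) (L ^ (1 / 3 - 3 / 8 * ε₀)) with h4 | h4
            · exact Or.inl h4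
            · exact Or.inr (hno p hp h4))
        linarith
      obtain ⟨P, hPR, hP1⟩ := hP
      obtain ⟨p, hpR, hp1, hp2⟩ := hp
      have hPN := (mem_filter.1 hPR).1
      have hpN := (mem_filter.1 hpR).1
      have hP0 : (0:ℝ) < P := by exact_mod_cast (Nat.prime_of_mem_primeFactors hPN).pos
      have hp0 : (0:ℝ) < p := by exact_mod_cast (Nat.prime_of_mem_primeFactors hpN).pos
      have hlt : p < P := by
        by_contra hge
        push Not at hge
        have : Real.log (P : ℝ) ≤ Real.log (p : ℝ) :=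
          Real.log_le_log hP0 (by exact_mod_cast hge)
        linarith
      have e1 : Real.exp (L ^ (1 / 3 - ε)) < (p : ℝ) := by
        rw [← Real.lt_log_iff_exp_lt hp0]
        exact lt_of_le_of_lt (hmono (by linarith)) hp1
      have e2 : (p : ℝ) < Real.exp (L ^ (2 / 3 : ℝ)) := by
        rw [← Real.log_lt_iff_lt_exp hp0]
        exact lt_of_lt_of_le hp2 (hmono (by linarith))
      have e3 := h2 p hpN P hPN hlt e1 e2
      rw [← Real.log_le_iff_le_exp hP0] at e3
      have e4 : L ^ (2 / 3 - ε) ≤ L ^ (2 / 3 - 3 / 4 * ε₀) := hmono (by linarith)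
      linarith

end Pool.Agent.Results.MP_f02ea4_nt.LargePrimesRemoved
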