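import Mathlib
import Pool.Agent.H612.OPN.Asym

/-!
# The largest prime factor of an odd perfect number is at least `(log N) ^ (2 / 3 - ε)`

Let `N` be an odd perfect number (or any `N > 1` dividing the sum of its divisors), `ω` the number
of its prime factors and `P` the largest one. For every `ε > 0`

  `log N ≤ C ω P ^ (1 / 2 + ε)`, hence `log N ≤ C P ^ (3 / 2 + ε)`, `P ≥ c (log N) ^ (2 / 3 - ε)`.

So the exponents of an odd perfect number are on average at most `P ^ (1 / 2 + ε)`. More generally,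
if `D` is the part of `N` composed of the primes `> y` and `k` is the number of prime factors `≤ y`,
then `log N ≤ C (log (y log N) + 2) ^ 15 log D + C (y log N) ^ ε k √y`; in particular
`log D ≥ c log N / (log log N) ^ 15` for all `y ≤ (log N) ^ (2 / 3 - ε)` and large `N`.

Proof. Put `s q = σ(q ^ e) = (q ^ n - 1) / (q - 1)` for `q ^ e ∥ N`, `n = e + 1`, and let `x q r` be
the logarithm of the `r`-part of `s q`. The matrix `x` has nearly equal row and column sums
`log (q ^ e)`.
* For each `r` all the entries of the column `r`, with one exception, are small: if `r ^ W` divides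
  `q₁ ^ (r - 1) - 1` and `q₂ ^ (r - 1) - 1`, the monomials `q₁ ^ a q₂ ^ b ≤ r ^ W` are different
  solutions of `X ^ (r - 1) = 1` modulo `r ^ W`, so that `W log r ≤ 2 √r log P`; and only `P ^ (1 / j)`
  rows have an entry larger than about `j log P`.
* `s q` has at most `P ^ (1 / 2 + ε)` prime factors (those of order `d ∣ n` are `1` modulo `d`, and
  their product is at most `q ^ d`).
* Since the columns are dominated by one entry, comparison of the sums of `w log w` over the rows and
  the columns shows that nearly all the weight lies in entries which dominate their row, too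
  (`entropy`). Hence `q ^ n - 1 = (q - 1) B r ^ V` where the sum of the `log B` is small.
* A lower bound for linear forms in two logarithms of rational numbers (`two_logs`: interpolation
  determinants with a zero estimate) gives `n ≤ C (log P) ^ 13 (1 + log ((q - 1) B))`
  (`dominant_bound`).
-/

set_option autoImplicit false

namespace Pool.Agent.Results.MP_f02ea4_nt.LargePrimesTwoThirds

open Finset

/-- `P` is the largest prime factor of `N`. -/
def IsLargestPrimeFactor (N P : ℕ) : Prop := P ∈ N.primeFactors ∧ ∀ q ∈ N.primeFactors, q ≤ P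

/-- The part of `N` composed of the primes `> y`. -/
def largePart (N y : ℕ) : ℕ := ∏ p ∈ N.primeFactors.filter (fun p => y < p), p ^ N.factorization p

lemma log_largePart (N y : ℕ) : Real.log (largePart N y) =
    ∑ q ∈ N.primeFactors.filter (fun q => ¬ q ≤ y), (N.factorization q : ℝ) * Real.log q := by
  have h1 : N.primeFactors.filter (fun q => ¬ q ≤ y) = N.primeFactors.filter (fun p => y < p) := by
    simp only [not_le]
  unfold largePart
  rw [h1]
  push_cast
  rw [Real.log_prod]
  · apply sum_congr rfl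
    intro q _
    rw [Real.log_pow]
  · intro q hq
    have : (0:ℝ) < q := by
      exact_mod_cast (Nat.prime_of_mem_primeFactors (mem_filter.1 hq).1).pos
    positivity

/-- The form with all primes up to a power of `log N`. -/
theorem large_part_ge (ε : ℝ) (hε : 0 < ε) : ∃ C : ℝ, 0 < C ∧ ∀ N y : ℕ, 1 < N →
    N ∣ ∑ d ∈ N.divisors, d → C ≤ N → (y:ℝ) ≤ Real.log N ^ (2 / 3 - ε) →
    Real.log N ≤ C * Real.log (Real.log N) ^ 15 * Real.log (largePart N y) := by
  obtain ⟨C, hC, hmain⟩ := Pool.Agent.H612.OPN.log_le_of_part (ε / 4) (by linarith)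
  refine ⟨Real.exp (3 + (2 * C + 1) ^ (1 / ε)) + 2 * C * 4 ^ 15, by positivity, ?_⟩
  intro N y hN hdiv hCN hy
  have hN0 : (0:ℝ) < N := by exact_mod_cast (by omega : 0 < N)
  have hX : 3 + (2 * C + 1) ^ (1 / ε) ≤ Real.log N := by
    apply (Real.le_log_iff_exp_le hN0).2
    have : 0 ≤ 2 * C * 4 ^ 15 := by positivity
    linarith
  have hpow0 : 0 ≤ (2 * C + 1) ^ (1 / ε) := by positivity
  set X := Real.log N with hXdef
  have hX1 : 1 ≤ X := by linarith
  have hX0 : 0 < X := by linarith
  set D := Real.log (largePart N y) with hD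
  have hD0 : 0 ≤ D := Real.log_natCast_nonneg _
  have hLX : 1 ≤ Real.log X := by
    rw [Real.le_log_iff_exp_le hX0]
    have := Real.exp_one_lt_d9
    linarith
  have hE1 : 1 ≤ Real.exp (3 + (2 * C + 1) ^ (1 / ε)) := Real.one_le_exp (by positivity)
  have hL15 : 1 ≤ Real.log X ^ 15 := one_le_pow₀ hLX
  rcases Nat.eq_zero_or_pos y with hy0 | hy0
  · have h1 : largePart N y = N := by
      unfold largePart
      rw [hy0, filter_true_of_mem (fun q hq => (Nat.prime_of_mem_primeFactors hq).pos)]
      exact Nat.prod_factorization_pow_eq_self (by omega)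
    rw [hD, h1, ← hXdef]
    have h2 : 1 ≤ Real.exp (3 + (2 * C + 1) ^ (1 / ε)) + 2 * C * 4 ^ 15 := by
      have : 0 ≤ 2 * C * 4 ^ 15 := by positivity
      linarith
    have h3 : 1 ≤ (Real.exp (3 + (2 * C + 1) ^ (1 / ε)) + 2 * C * 4 ^ 15) * Real.log X ^ 15 :=
      one_le_mul_of_one_le_of_one_le h2 hL15
    exact le_mul_of_one_le_left hX0.le h3
  have hyr : (1:ℝ) ≤ y := by exact_mod_cast hy0
  have hε2 : 2 * C + 1 ≤ X ^ ε := by
    have h1 : (2 * C + 1) ^ (1 / ε) ≤ X := by linarith
    calc 2 * C + 1 = ((2 * C + 1) ^ (1 / ε)) ^ ε := by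
          rw [← Real.rpow_mul (by positivity)]
          have : 1 / ε * ε = 1 := by field_simp
          rw [this, Real.rpow_one]
      _ ≤ X ^ ε := Real.rpow_le_rpow (by positivity) h1 hε.le
  have h1 := hmain N y hN hdiv hy0
  rw [← log_largePart, ← hXdef, ← hD] at h1
  have hyX : (y:ℝ) ≤ X := by
    refine hy.trans ?_
    calc X ^ (2 / 3 - ε) ≤ X ^ (1:ℝ) := Real.rpow_le_rpow_of_exponent_le hX1 (by linarith)
      _ = X := Real.rpow_one X
  have h2 : ((y:ℝ) * X) ^ (ε / 4) ≤ X ^ (ε / 2) := by
    calc ((y:ℝ) * X) ^ (ε / 4) ≤ (X * X) ^ (ε / 4) :=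
          Real.rpow_le_rpow (by positivity) (mul_le_mul_of_nonneg_right hyX hX0.le) (by linarith)
      _ = X ^ (ε / 2) := by
          rw [Real.mul_rpow hX0.le hX0.le, ← Real.rpow_add hX0]
          congr 1
          ring
  have hlogyX : Real.log (y * X) + 2 ≤ 4 * Real.log X := by
    have e1 : Real.log (y * X) ≤ Real.log (X * X) :=
      Real.log_le_log (by positivity) (mul_le_mul_of_nonneg_right hyX hX0.le)
    rw [Real.log_mul hX0.ne' hX0.ne'] at e1
    linarith
  have hlogyX0 : 0 ≤ Real.log (y * X) + 2 := by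
    have : 0 ≤ Real.log (y * X) := Real.log_nonneg (one_le_mul_of_one_le_of_one_le hyr hX1)
    linarith
  have hcard : ((N.primeFactors.filter (fun q => q ≤ y)).card : ℝ) ≤ y := by
    have h3 : N.primeFactors.filter (fun q => q ≤ y) ⊆ Finset.Icc 1 y := by
      intro q hq
      rw [mem_filter] at hq
      rw [mem_Icc]
      exact ⟨(Nat.prime_of_mem_primeFactors hq.1).pos, hq.2⟩
    have := card_le_card h3
    rw [Nat.card_Icc, Nat.add_sub_cancel] at this
    exact_mod_cast this
  have h3 : ((N.primeFactors.filter (fun q => q ≤ y)).card : ℝ) * Real.sqrt y ≤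
      X ^ (1 - 3 / 2 * ε) := by
    calc _ ≤ (y:ℝ) * Real.sqrt y := mul_le_mul_of_nonneg_right hcard (Real.sqrt_nonneg _)
      _ = (y:ℝ) ^ ((3:ℝ) / 2) := by
          rw [Real.sqrt_eq_rpow]
          nth_rewrite 1 [← Real.rpow_one (y:ℝ)]
          rw [← Real.rpow_add (by linarith)]
          norm_num
      _ ≤ (X ^ (2 / 3 - ε)) ^ ((3:ℝ) / 2) := Real.rpow_le_rpow (by positivity) hy (by norm_num)
      _ = X ^ (1 - 3 / 2 * ε) := by
          rw [← Real.rpow_mul hX0.le]
          congr 1
          ring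
  have h4 : C * (y * X) ^ (ε / 4) *
      ((N.primeFactors.filter (fun q => q ≤ y)).card * Real.sqrt y) ≤ C * X ^ (1 - ε) := by
    calc _ ≤ (C * X ^ (ε / 2)) * X ^ (1 - 3 / 2 * ε) := by
          apply mul_le_mul (mul_le_mul_of_nonneg_left h2 hC) h3 (by positivity) (by positivity)
      _ = C * X ^ (1 - ε) := by
          rw [mul_assoc, ← Real.rpow_add hX0]
          congr 2
          ring
  have h5 : C * X ^ (1 - ε) ≤ X / 2 := by
    have e1 : X ^ ε * X ^ (1 - ε) = X := by
      rw [← Real.rpow_add hX0, show ε + (1 - ε) = 1 by ring, Real.rpow_one]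
    have e2 : (2 * C + 1) * X ^ (1 - ε) ≤ X ^ ε * X ^ (1 - ε) :=
      mul_le_mul_of_nonneg_right hε2 (by positivity)
    have e3 : 0 ≤ X ^ (1 - ε) := by positivity
    linarith
  have h6 : C * (Real.log (y * X) + 2) ^ 15 * D ≤ C * 4 ^ 15 * Real.log X ^ 15 * D := by
    apply mul_le_mul_of_nonneg_right _ hD0
    rw [mul_assoc, ← mul_pow]
    apply mul_le_mul_of_nonneg_left _ hC
    exact pow_le_pow_left₀ hlogyX0 hlogyX _
  have h7 : X ≤ 2 * C * 4 ^ 15 * Real.log X ^ 15 * D := by linarith
  refine h7.trans ?_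
  apply mul_le_mul_of_nonneg_right _ hD0
  apply mul_le_mul_of_nonneg_right _ (by positivity)
  linarith

lemma card_le {N P : ℕ} (h : IsLargestPrimeFactor N P) : (N.primeFactors.card : ℝ) ≤ P := by
  have h3 : N.primeFactors ⊆ Finset.Icc 1 P := by
    intro q hq
    rw [mem_Icc]
    exact ⟨(Nat.prime_of_mem_primeFactors hq).pos, h.2 q hq⟩
  have := card_le_card h3
  rw [Nat.card_Icc, Nat.add_sub_cancel] at this
  exact_mod_cast this

/-- **Main theorem.** For every `ε > 0` there is `C` with the following properties.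
(1), (2) concern odd perfect numbers, (3), (4), (5) all `N > 1` which divide the sum of their
divisors. `ω(N)` is the number of prime factors of `N`, `P` the largest prime factor, and `D` the
part of `N` composed of the primes `> y`.
(1) `log N ≤ C ω(N) P ^ (1 / 2 + ε)` and `log N ≤ C P ^ (3 / 2 + ε)`.
(2) If `N ≥ C` and `y ≤ (log N) ^ (2 / 3 - ε)` then `log D ≥ log N / (C (log log N) ^ 15)`.
(3), (4) The same bounds.
(5) For all `y ≥ 1`, `log N ≤ C (log (y log N) + 2) ^ 15 log D + C (y log N) ^ ε k √y`, where `k` is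
the number of prime factors `≤ y` of `N`. -/
theorem result (ε : ℝ) (hε : 0 < ε) : ∃ C : ℝ, 0 < C ∧
    (∀ N P : ℕ, Odd N → N.Perfect → IsLargestPrimeFactor N P →
      Real.log N ≤ C * N.primeFactors.card * (P:ℝ) ^ (1 / 2 + ε) ∧
      Real.log N ≤ C * (P:ℝ) ^ (3 / 2 + ε)) ∧
    (∀ N y : ℕ, Odd N → N.Perfect → C ≤ N → (y:ℝ) ≤ Real.log N ^ (2 / 3 - ε) →
      Real.log N ≤ C * Real.log (Real.log N) ^ 15 * Real.log (largePart N y)) ∧
    (∀ N P : ℕ, 1 < N → N ∣ ∑ d ∈ N.divisors, d → IsLargestPrimeFactor N P →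
      Real.log N ≤ C * N.primeFactors.card * (P:ℝ) ^ (1 / 2 + ε) ∧
      Real.log N ≤ C * (P:ℝ) ^ (3 / 2 + ε)) ∧
    (∀ N y : ℕ, 1 < N → N ∣ ∑ d ∈ N.divisors, d → C ≤ N → (y:ℝ) ≤ Real.log N ^ (2 / 3 - ε) →
      Real.log N ≤ C * Real.log (Real.log N) ^ 15 * Real.log (largePart N y)) ∧
    (∀ N y : ℕ, 1 < N → N ∣ ∑ d ∈ N.divisors, d → 1 ≤ y →
      Real.log N ≤ C * (Real.log (y * Real.log N) + 2) ^ 15 * Real.log (largePart N y) +
        C * (y * Real.log N) ^ ε *
          ((N.primeFactors.filter (fun q => q ≤ y)).card * Real.sqrt y)) := by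
  obtain ⟨C₁, hC₁, h₁⟩ := Pool.Agent.H612.OPN.log_le_of_largest ε hε
  obtain ⟨C₂, hC₂, h₂⟩ := large_part_ge ε hε
  obtain ⟨C₃, hC₃, h₃⟩ := Pool.Agent.H612.OPN.log_le_of_part ε hε
  have hopn : ∀ N : ℕ, N.Perfect → 1 < N ∧ N ∣ ∑ d ∈ N.divisors, d := by
    intro N h
    have h1 := (Nat.perfect_iff_sum_divisors_eq_two_mul h.2).1 h
    refine ⟨?_, ⟨2, by rw [h1]; ring⟩⟩
    have h2 := h.2
    by_contra hcon
    have : N = 1 := by omega
    subst this
    simp at h1
  have hA : ∀ N P : ℕ, 1 < N → N ∣ ∑ d ∈ N.divisors, d → IsLargestPrimeFactor N P →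
      Real.log N ≤ (C₁ + C₂ + C₃) * N.primeFactors.card * (P:ℝ) ^ (1 / 2 + ε) ∧
      Real.log N ≤ (C₁ + C₂ + C₃) * (P:ℝ) ^ (3 / 2 + ε) := by
    intro N P hN hdiv hP
    have e1 := h₁ N P hN hdiv hP.1 hP.2
    have e2 : C₁ * N.primeFactors.card * (P:ℝ) ^ (1 / 2 + ε) ≤
        (C₁ + C₂ + C₃) * N.primeFactors.card * (P:ℝ) ^ (1 / 2 + ε) := by
      apply mul_le_mul_of_nonneg_right _ (by positivity)
      apply mul_le_mul_of_nonneg_right _ (by positivity)
      linarith
    refine ⟨e1.trans e2, (e1.trans e2).trans ?_⟩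
    have hP0 : (0:ℝ) < P := by exact_mod_cast (Nat.prime_of_mem_primeFactors hP.1).pos
    have e3 : (P:ℝ) ^ (3 / 2 + ε) = P * (P:ℝ) ^ (1 / 2 + ε) := by
      nth_rewrite 2 [← Real.rpow_one (P:ℝ)]
      rw [← Real.rpow_add hP0]
      congr 1
      ring
    rw [e3, ← mul_assoc]
    apply mul_le_mul_of_nonneg_right _ (by positivity)
    exact mul_le_mul_of_nonneg_left (card_le hP) (by positivity)
  have hB : ∀ N y : ℕ, 1 < N → N ∣ ∑ d ∈ N.divisors, d → C₁ + C₂ + C₃ ≤ N →
      (y:ℝ) ≤ Real.log N ^ (2 / 3 - ε) →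
      Real.log N ≤ (C₁ + C₂ + C₃) * Real.log (Real.log N) ^ 15 * Real.log (largePart N y) := by
    intro N y hN hdiv hC hy
    have e1 := h₂ N y hN hdiv (by linarith) hy
    have hD0 : 0 ≤ Real.log (largePart N y) := Real.log_natCast_nonneg _
    -- the sign of the power does not matter: the bound forces it to be nonnegative
    by_contra hcon
    push Not at hcon
    have hN0 : 0 ≤ Real.log N := Real.log_natCast_nonneg _
    have e2 : C₂ * Real.log (Real.log N) ^ 15 * Real.log (largePart N y) ≤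
        (C₁ + C₂ + C₃) * Real.log (Real.log N) ^ 15 * Real.log (largePart N y) := by
      have e3 : 0 ≤ Real.log (Real.log N) ^ 15 * Real.log (largePart N y) := by
        rw [mul_assoc] at e1
        by_contra h
        push Not at h
        have := mul_neg_of_pos_of_neg hC₂ h
        linarith
      rw [mul_assoc, mul_assoc]
      exact mul_le_mul_of_nonneg_right (by linarith) e3
    linarith
  refine ⟨C₁ + C₂ + C₃, by positivity, ?_, ?_, hA, hB, ?_⟩
  · intro N P _ hN hP
    exact hA N P (hopn N hN).1 (hopn N hN).2 hP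
  · intro N y _ hN hC hy
    exact hB N y (hopn N hN).1 (hopn N hN).2 hC hy
  · intro N y hN hdiv hy
    refine (h₃ N y hN hdiv hy).trans ?_
    rw [← log_largePart]
    have hD0 : 0 ≤ Real.log (largePart N y) := Real.log_natCast_nonneg _
    have hl0 : 0 ≤ Real.log N := Real.log_natCast_nonneg _
    have hX1 : 0 ≤ Real.log (y * Real.log N) + 2 := by
      have hyr : (1:ℝ) ≤ y := by exact_mod_cast hy
      have hlog2 := Real.log_two_gt_d9
      have hlN : Real.log 2 ≤ Real.log N :=
        Real.log_le_log (by norm_num) (by exact_mod_cast hN)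
      have h1 : Real.log (1 / 2) ≤ Real.log (y * Real.log N) := by
        apply Real.log_le_log (by norm_num)
        calc (1:ℝ) / 2 ≤ 1 * Real.log N := by linarith
          _ ≤ y * Real.log N := mul_le_mul_of_nonneg_right hyr hl0
      have h2 : Real.log (1 / 2) = - Real.log 2 := by
        rw [one_div, Real.log_inv]
      have h3 := Real.log_two_lt_d9
      linarith
    apply add_le_add
    · apply mul_le_mul_of_nonneg_right _ hD0
      apply mul_le_mul_of_nonneg_right _ (by positivity)
      linarith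
    · apply mul_le_mul_of_nonneg_right _ (by positivity)
      apply mul_le_mul_of_nonneg_right _ (by positivity)
      linarith

end Pool.Agent.Results.MP_f02ea4_nt.LargePrimesTwoThirds
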